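import Mathlib
import Pool.Agent.H723.QJ.Defs
import Pool.Agent.H723.QJ.LzDefs
import Pool.Agent.H723.QE.E1

/-! Copies of one window, with the digits of the other numbers. -/

set_option autoImplicit false

open Finset

namespace Pool.Agent.H723.QF

open Pool.Agent.H723.QP Pool.Agent.H723.QE Pool.Agent.H723.QJ

/-- dependent windows of one of the numbers -/
theorem depV_of_depR {k : ℕ} (b : ℕ) (α : Fin k → ℝ) (i₀ : Fin k) {D : ℕ} {C C' : ℝ} {m : ℕ}
    (hC : C * m ≤ C' * m) (h : DepR b (α i₀) D C m) : DepV b α D C' m := by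
  obtain ⟨D', hD', t, ht, hpos, hdep⟩ := h
  exact ⟨D', hD', fun j => (i₀, t j), fun x y hxy => ht (congrArg Prod.snd hxy),
    fun j => (hpos j).trans hC, hdep⟩

/-- a window of digits which is an affine image of a window of another number -/
theorem dep_side {k : ℕ} (b : ℕ) (α : Fin k → ℝ) (i₀ i₁ : Fin k) (hi : i₁ ≠ i₀) (m p q : ℕ) (C : ℝ)
    (hp : ((p + 1 : ℕ) : ℝ) ≤ C * m) (hq : ((q + 1 : ℕ) : ℝ) ≤ C * m) (a c : ℝ)
    (h : ∀ x ≤ m, (dg b (α i₀) (p + x + 1) : ℝ) = a + c * (dg b (α i₁) (q + x + 1) : ℝ)) :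
    DepV b α 4 C m := by
  refine ⟨4, le_rfl, ![(i₀, p), (i₀, p + 1), (i₁, q), (i₁, q + 1)], ?_, ?_, ?_⟩
  · intro x y hxy
    fin_cases x <;> fin_cases y <;> simp_all [Prod.ext_iff] <;>
      first | exact absurd hxy hi | exact absurd hxy.1 hi | exact absurd hxy.1.symm hi | omega
  · have hp' : (p : ℝ) ≤ C * m := by push_cast at hp; linarith
    have hq' : (q : ℝ) ≤ C * m := by push_cast at hq; linarith
    intro x
    fin_cases x
    · simpa using hp'
    · simpa using hp
    · simpa using hq'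
    · simpa using hq
  · rw [Fintype.linearIndependent_iff]
    intro hli
    have h1 := hli ![-1, 1, c, -c] (by
      funext x
      rw [Finset.sum_apply]
      simp only [Fin.sum_univ_four, Pi.smul_apply, smul_eq_mul, Pi.zero_apply,
        Matrix.cons_val_zero, Matrix.cons_val_one, Matrix.cons_val]
      have h2 := h x x.2.le
      have h3 := h (x + 1) x.2
      rw [show p + (x + 1 : ℕ) + 1 = p + 1 + (x : ℕ) + 1 by ring,
        show q + (x + 1 : ℕ) + 1 = q + 1 + (x : ℕ) + 1 by ring] at h3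
      linear_combination h3 - h2) 1
    simp at h1

end Pool.Agent.H723.QF
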