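import Mathlib
import Pool.Agent.H723.QE.E2

/-! The local lemma, with a hypothesis only for the pieces without errors. -/

set_option autoImplicit false

open Finset

namespace Pool.Agent.H723.QF

open Pool.Agent.H723.QP Pool.Agent.H723.QE

/-- if the windows of digits at the scale `2 ^ (j - ρ)` are independent, then there are many
breakpoints or many errors at the scale `2 ^ j` -/
theorem loc_err' (b : ℕ) (ξ : ℝ) (ρ j : ℕ) (hj : ρ + 5 ≤ j) (v : ℕ → ℝ) (B : Finset ℕ)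
    (hB : ∀ s, 1 ≤ s → s + 2 ^ (j - ρ) ≤ 2 ^ (j + 1) →
      (∀ x ∈ B, ¬ (s < x ∧ x < s + 2 ^ (j - ρ))) →
      (∀ t, s ≤ t → t < s + 2 ^ (j - ρ) → v t = (dg b ξ (t + 1) : ℝ)) → Cp1 v s (s + 2 ^ (j - ρ)))
    (hdep : ¬ DepR b ξ 4 ((2 ^ (ρ + 3) : ℕ) : ℝ) (2 ^ (j - ρ - 2))) :
    2 ^ ρ ≤ 8 * (#{x ∈ B | 2 ^ j ≤ x ∧ x < 2 ^ (j + 1)} +
      #{t ∈ Finset.Ico (2 ^ (j - ρ - 1)) (2 ^ (j + 1)) | v t ≠ (dg b ξ (t + 1) : ℝ)}) := by
  obtain ⟨h, hh⟩ : ∃ h : ℕ, h = 2 ^ (j - ρ - 3) := ⟨_, rfl⟩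
  obtain ⟨R, hR⟩ : ∃ R : ℕ, R = 2 ^ ρ := ⟨_, rfl⟩
  obtain ⟨m, hm⟩ : ∃ m : ℕ, m = 2 ^ (j - ρ - 2) := ⟨_, rfl⟩
  have hh4 : 4 ≤ h := by
    rw [hh]
    calc 4 = 2 ^ 2 := by norm_num
      _ ≤ 2 ^ (j - ρ - 3) := Nat.pow_le_pow_right (by norm_num) (by omega)
  have hmh : m = 2 * h := by
    rw [hm, hh, show j - ρ - 2 = (j - ρ - 3) + 1 by omega, pow_succ, mul_comm]
  have hR1 : 1 ≤ R := by
    rw [hR]
    exact Nat.one_le_two_pow
  have e1 : 2 ^ (j - ρ - 1) = 2 * m := by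
    rw [hm, show j - ρ - 1 = (j - ρ - 2) + 1 by omega, pow_succ, mul_comm]
  have e2 : 2 ^ j = 4 * (R * m) := by
    rw [hR, hm, ← pow_add, show (4 : ℕ) = 2 ^ 2 by norm_num, ← pow_add]
    congr 1
    omega
  have e3 : 2 ^ (j + 1) = 8 * (R * m) := by
    rw [pow_succ, e2]
    ring
  have e4 : 2 ^ (ρ + 3) * m = 8 * (R * m) := by
    rw [hR, pow_add]
    ring
  rw [← hm] at hdep
  rw [e1, e2, e3, ← hR]
  have e5 : 2 ^ (j - ρ) = 4 * m := by
    have e6 : 2 ^ (j - ρ) = 2 ^ (j - ρ - 2) * 2 ^ 2 := by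
      rw [← pow_add]
      congr 1
      omega
    rw [e6, ← hm]
    ring
  rw [e3, e5] at hB
  set Bj := B.filter (fun x => 4 * (R * m) ≤ x ∧ x < 8 * (R * m)) with hBj
  set Er := (Finset.Ico (2 * m) (8 * (R * m))).filter (fun t => v t ≠ (dg b ξ (t + 1) : ℝ)) with hEr
  by_contra hcon
  rw [not_le] at hcon
  have hdig : ∀ t, 2 * m ≤ t → t < 8 * (R * m) → t ∉ Er → v t = (dg b ξ (t + 1) : ℝ) := by
    intro t h1 h2 h3
    by_contra h4
    exact h3 (Finset.mem_filter.mpr ⟨Finset.mem_Ico.mpr ⟨h1, h2⟩, h4⟩)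
  have hCm : ∀ p : ℕ, p + 1 ≤ 8 * (R * m) → ((p + 1 : ℕ) : ℝ) ≤ ((2 ^ (ρ + 3) : ℕ) : ℝ) * (m : ℝ) := by
    intro p hp
    rw [← e4] at hp
    exact_mod_cast hp
  -- the pieces
  obtain ⟨s, hs⟩ : ∃ s : ℕ → ℕ, ∀ i, s i = 4 * (R * m) + 4 * (i * m) :=
    ⟨fun i => 4 * (R * m) + 4 * (i * m), fun i => rfl⟩
  have hRm : m ≤ R * m := Nat.le_mul_of_pos_left m hR1
  have hs1 : ∀ i, i < R → s i + 4 * m ≤ 8 * (R * m) := by
    intro i hi
    have h1 : (i + 1) * m ≤ R * m := Nat.mul_le_mul_right m hi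
    rw [hs, add_mul] at *
    omega
  have hs2 : ∀ i i', i < i' → s i + 4 * m ≤ s i' := by
    intro i i' hi
    have h1 : (i + 1) * m ≤ i' * m := Nat.mul_le_mul_right m hi
    rw [add_mul] at h1
    rw [hs, hs]
    omega
  have hidx : ∀ i x, s i ≤ x → x < s i + 4 * m → (x - 4 * (R * m)) / (4 * m) = i := by
    intro i x h1 h2
    rw [hs] at h1 h2
    have e5 : i * (4 * m) = 4 * (i * m) := by ring
    have e6 : (i + 1) * (4 * m) = 4 * (i * m) + 4 * m := by ring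
    refine Nat.div_eq_of_lt_le ?_ ?_
    · rw [e5]
      omega
    · rw [e6]
      omega
  set good : ℕ → Prop := fun i => (∀ x ∈ B, ¬ (s i < x ∧ x < s i + 4 * m)) ∧
    (∀ t ∈ Er, ¬ (s i ≤ t ∧ t < s i + 4 * m)) with hgood
  classical
  set G := (Finset.range R).filter good with hG
  have hbad : #((Finset.range R).filter (fun i => ¬ good i)) ≤ #Bj + #Er := by
    have hsub : (Finset.range R).filter (fun i => ¬ good i) ⊆
        (Bj ∪ Er).image (fun x => (x - 4 * (R * m)) / (4 * m)) := by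
      intro i hi
      obtain ⟨hi1, hi2⟩ := Finset.mem_filter.mp hi
      rw [Finset.mem_range] at hi1
      have h8 := hs1 i hi1
      have h9 : 4 * (R * m) ≤ s i := by
        rw [hs]
        omega
      by_cases hA : ∃ x ∈ B, s i < x ∧ x < s i + 4 * m
      · obtain ⟨x, hx, h1, h2⟩ := hA
        refine Finset.mem_image.mpr ⟨x, Finset.mem_union_left _ ?_, hidx i x h1.le h2⟩
        exact Finset.mem_filter.mpr ⟨hx, by omega, by omega⟩
      · by_cases hE : ∃ t ∈ Er, s i ≤ t ∧ t < s i + 4 * m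
        · obtain ⟨x, hx, h1, h2⟩ := hE
          exact Finset.mem_image.mpr ⟨x, Finset.mem_union_right _ hx, hidx i x h1 h2⟩
        · exact absurd ⟨fun x hx h6 => hA ⟨x, hx, h6⟩, fun t ht h6 => hE ⟨t, ht, h6⟩⟩ hi2
    exact (Finset.card_le_card hsub).trans (Finset.card_image_le.trans (Finset.card_union_le _ _))
  have hcount : #G + #((Finset.range R).filter (fun i => ¬ good i)) = R := by
    rw [hG, Finset.card_filter_add_card_filter_not, Finset.card_range]
  have hGbig : 7 * (#Bj + #Er) < #G := by omega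
  -- the copies
  have hdata : ∀ i, ∃ (d : ℕ) (a c : ℝ), i ∈ G → 1 ≤ d ∧ d ≤ s i ∧
      ∀ t, s i ≤ t → t < s i + 4 * m → v t = a + c * v (t - d) := by
    intro i
    by_cases hi : i ∈ G
    · obtain ⟨hi1, hi2⟩ := Finset.mem_filter.mp hi
      rw [Finset.mem_range] at hi1
      have hsi := hs1 i hi1
      have hsi' : 4 * (R * m) ≤ s i := by rw [hs]; omega
      obtain ⟨d, a, c, h1, h2, h3⟩ := hB (s i) (by omega) hsi hi2.1
        (fun t ht1 ht2 => hdig t (by omega) (by omega) (fun h6 => hi2.2 t h6 ⟨ht1, ht2⟩))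
      exact ⟨d, a, c, fun _ => ⟨h1, h2, h3⟩⟩
    · exact ⟨0, 0, 0, fun h => absurd h hi⟩
  choose d a c hdac using hdata
  have hGR : ∀ i ∈ G, i < R := fun i hi => Finset.mem_range.mp (Finset.mem_filter.mp hi).1
  have hwin : ∀ i ∈ G, ∀ x, x < 2 * m →
      (dg b ξ (s i + 2 * m + x + 1) : ℝ) = a i + c i * v (s i + 2 * m - d i + x) := by
    intro i hi x hx
    obtain ⟨h1, h2, h3⟩ := hdac i hi
    have h4 := (Finset.mem_filter.mp hi).2.2
    have h5 := hs1 i (hGR i hi)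
    rw [← hdig (s i + 2 * m + x) (by omega) (by omega)
      (fun h6 => h4 _ h6 ⟨by omega, by omega⟩), h3 _ (by omega) (by omega)]
    rw [show s i + 2 * m + x - d i = s i + 2 * m - d i + x by omega]
  -- two pieces with close sources
  have hclose : ∀ i ∈ G, ∀ i' ∈ G, i < i' →
      (s i + 2 * m - d i) + h ≤ (s i' + 2 * m - d i') ∨
      (s i' + 2 * m - d i') + h ≤ (s i + 2 * m - d i) := by
    intro i hi i' hi' hlt
    by_contra hno
    rw [not_or, not_le, not_le] at hno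
    obtain ⟨M, hM⟩ : ∃ M : ℕ, M = max (s i + 2 * m - d i) (s i' + 2 * m - d i') := ⟨_, rfl⟩
    have hM1 : s i + 2 * m - d i ≤ M := hM ▸ le_max_left _ _
    have hM2 : s i' + 2 * m - d i' ≤ M := hM ▸ le_max_right _ _
    have hM3 : M < s i + 2 * m - d i + h ∧ M < s i' + 2 * m - d i' + h := by
      rcases max_choice (s i + 2 * m - d i) (s i' + 2 * m - d i') with h6 | h6
      · rw [hM, h6]
        omega
      · rw [hM, h6]
        omega
    have h7 := hs2 i i' hlt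
    have h8 := hs1 i' (hGR i' hi')
    refine hdep (dep_two b ξ m (s i + 2 * m + (M - (s i + 2 * m - d i)))
      (s i' + 2 * m + (M - (s i' + 2 * m - d i'))) (by omega) _ (hCm _ (by omega))
      (fun x => v (M + x)) (a i) (c i) (a i') (c i') ?_ ?_)
    · intro x hx
      have h9 := hwin i hi ((M - (s i + 2 * m - d i)) + x) (by omega)
      rw [show s i + 2 * m - d i + ((M - (s i + 2 * m - d i)) + x) = M + x by omega] at h9
      rw [show s i + 2 * m + (M - (s i + 2 * m - d i)) + x + 1 =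
        s i + 2 * m + ((M - (s i + 2 * m - d i)) + x) + 1 by omega]
      exact h9
    · intro x hx
      have h9 := hwin i' hi' ((M - (s i' + 2 * m - d i')) + x) (by omega)
      rw [show s i' + 2 * m - d i' + ((M - (s i' + 2 * m - d i')) + x) = M + x by omega] at h9
      rw [show s i' + 2 * m + (M - (s i' + 2 * m - d i')) + x + 1 =
        s i' + 2 * m + ((M - (s i' + 2 * m - d i')) + x) + 1 by omega]
      exact h9
  -- a clean source
  have hclean : ∃ i ∈ G, ∀ e ∈ Er, ¬ (s i + 2 * m - d i ≤ e ∧ e < s i + 2 * m - d i + 4 * h) := by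
    by_contra hall
    push Not at hall
    have h5 := loc_err_count G Er (fun i => s i + 2 * m - d i) h (by omega) (by
      intro i hi i' hi' hne
      rcases lt_or_gt_of_ne hne with h6 | h6
      · exact hclose i hi i' hi' h6
      · exact (hclose i' hi' i hi h6).symm) hall
    omega
  obtain ⟨i, hi, hcl⟩ := hclean
  obtain ⟨h1, h2, h3⟩ := hdac i hi
  have h5 := hs1 i (hGR i hi)
  refine hdep (dep_one b ξ m (s i + 2 * m) (d i) h1 (by omega) _ (hCm _ (by omega)) (a i) (c i) ?_)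
  intro x hx
  rw [hwin i hi x (by omega)]
  rw [hdig (s i + 2 * m - d i + x) (by omega) (by omega) (fun h6 => hcl _ h6 ⟨by omega, by omega⟩)]

end Pool.Agent.H723.QF
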