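import Mathlib
import Pool.Agent.H723.QJ.LzFin
import Pool.Agent.H723.QE.E3
import Pool.Agent.H723.QF.F1
import Pool.Agent.H723.QF.F2

/-! Parsings of order one with the digits of other numbers, with errors: the exponent 3/2. -/

set_option autoImplicit false

open Finset

namespace Pool.Agent.H723.QF

open Pool.Agent.H723.LZ Pool.Agent.H723.QP Pool.Agent.H723.QR Pool.Agent.H723.QE
open Pool.Agent.H723.QJ

/-- few breakpoints and few errors at one scale give dependent windows -/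
def LocE (b : ℕ) (ξ : ℝ) (Dp : ℝ → ℕ → Prop) (Cp : (ℕ → ℝ) → ℕ → ℕ → Prop) : Prop :=
  ∀ ρ j : ℕ, ρ + 5 ≤ j → ∀ (v : ℕ → ℝ) (B : Finset ℕ),
    (∀ s e, 1 ≤ s → s + 2 ≤ e → e ≤ 2 ^ (j + 1) → (∀ x ∈ B, ¬ (s < x ∧ x < e)) → Cp v s e) →
    ¬ Dp ((2 ^ (ρ + 3) : ℕ) : ℝ) (2 ^ (j - ρ - 2)) →
    2 ^ ρ ≤ 8 * (#{x ∈ B | 2 ^ j ≤ x ∧ x < 2 ^ (j + 1)} +
      #{t ∈ Finset.Ico (2 ^ (j - ρ - 1)) (2 ^ (j + 1)) | v t ≠ (dg b ξ (t + 1) : ℝ)})

/-- a block which is an affine copy of one window, of `v` or of the digits of another number -/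
def Cp1S {k : ℕ} (b : ℕ) (α : Fin k → ℝ) (i₀ : Fin k) (K : ℕ) (v : ℕ → ℝ) (s e : ℕ) : Prop :=
  Cp1 v s e ∨ ∃ i₁ : Fin k, i₁ ≠ i₀ ∧ ∃ q : ℕ, q ≤ K * s ∧ ∃ a c : ℝ, ∀ t, s ≤ t → t < e →
    v t = a + c * (dg b (α i₁) (q + (t - s) + 1) : ℝ)

theorem locE_S {k : ℕ} (b : ℕ) (α : Fin k → ℝ) (i₀ : Fin k) (K : ℕ) (hK : 1 ≤ K) :
    LocE b (α i₀) (fun C => DepV b α 4 (K * C)) (Cp1S b α i₀ K) := by
  intro ρ j hj v B hB hdep
  have hKR : (1 : ℝ) ≤ K := by exact_mod_cast hK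
  have e1 : 2 ^ (ρ + 3) * 2 ^ (j - ρ - 2) = 2 ^ (j + 1) := by
    rw [← pow_add]; congr 1; omega
  have h2 : 2 ≤ 2 ^ (j - ρ) := by
    calc 2 = 2 ^ 1 := rfl
      _ ≤ 2 ^ (j - ρ) := Nat.pow_le_pow_right (by norm_num) (by omega)
  have e2 : 2 ^ (j - ρ - 2) < 2 ^ (j - ρ) := Nat.pow_lt_pow_right (by norm_num) (by omega)
  refine loc_err' b (α i₀) ρ j hj v B ?_ ?_
  · intro s hs1 hs hno hclean
    rcases hB s (s + 2 ^ (j - ρ)) hs1 (by omega) hs hno with h | ⟨i₁, hi, q, hq, a, c, h⟩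
    · exact h
    · exfalso
      apply hdep
      have hs' : s + 1 ≤ 2 ^ (j + 1) := by omega
      have hK1 : K * (s + 1) ≤ K * 2 ^ (j + 1) := Nat.mul_le_mul_left _ hs'
      have hK2 : s + 1 ≤ K * (s + 1) := Nat.le_mul_of_pos_left _ hK
      refine dep_side b α i₀ i₁ hi (2 ^ (j - ρ - 2)) s q _ ?_ ?_ a c ?_
      · have h3 : s + 1 ≤ K * (2 ^ (ρ + 3) * 2 ^ (j - ρ - 2)) := by rw [e1]; omega
        have h4 : ((s + 1 : ℕ) : ℝ) ≤ ((K * (2 ^ (ρ + 3) * 2 ^ (j - ρ - 2)) : ℕ) : ℝ) := by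
          exact_mod_cast h3
        refine h4.trans (le_of_eq ?_)
        push_cast
        ring
      · have h3 : q + 1 ≤ K * (2 ^ (ρ + 3) * 2 ^ (j - ρ - 2)) := by
          rw [e1]
          rw [Nat.mul_add] at hK1
          omega
        have h4 : ((q + 1 : ℕ) : ℝ) ≤ ((K * (2 ^ (ρ + 3) * 2 ^ (j - ρ - 2)) : ℕ) : ℝ) := by
          exact_mod_cast h3
        refine h4.trans (le_of_eq ?_)
        push_cast
        ring
      · intro x hx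
        rw [← hclean (s + x) (by omega) (by omega), h (s + x) (by omega) (by omega),
          show q + (s + x - s) + 1 = q + x + 1 by omega]
  · intro h
    apply hdep
    refine depV_of_depR b α i₀ ?_ h
    have h3 : (0 : ℝ) ≤ ((2 ^ (ρ + 3) : ℕ) : ℝ) := Nat.cast_nonneg _
    have h4 : (0 : ℝ) ≤ ((2 ^ (j - ρ - 2) : ℕ) : ℝ) := Nat.cast_nonneg _
    apply mul_le_mul_of_nonneg_right _ h4
    exact le_mul_of_one_le_left h3 hKR

/-- the main inequality -/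
theorem main_g (A : ℝ) (hA : 0 ≤ A) :
    ∃ A' : ℝ, ∀ (b : ℕ) (ξ : ℝ) (Dp : ℝ → ℕ → Prop) (Cp : (ℕ → ℝ) → ℕ → ℕ → Prop),
      LocE b ξ Dp Cp → (∀ C : ℝ, 1 ≤ C → Thin (Dp C) (A * (C ^ 2 * (1 + Real.log C)))) →
      ∀ (N z : ℕ) (v : ℕ → ℝ), Brk Cp v N z →
      ∀ ρ : ℕ, A' * (2 ^ (2 * ρ) * ((ρ : ℝ) + 2)) ≤ Nat.log 2 N →
        2 ^ ρ * Nat.log 2 N ≤ 64 * ((ρ + 2) *
          (z + #{t ∈ Finset.range N | v t ≠ (dg b ξ (t + 1) : ℝ)})) := by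
  refine ⟨4 * (64 * 4 * A) + 16, ?_⟩
  intro b ξ Dp Cp hloc hthin N z v hBrk ρ hJ
  obtain ⟨B, hBc, hB⟩ := hBrk
  have hρ0 : (0 : ℝ) ≤ ρ := Nat.cast_nonneg _
  obtain ⟨J, hJd⟩ : ∃ J, J = Nat.log 2 N := ⟨_, rfl⟩
  rw [← hJd] at hJ
  obtain ⟨x, hx⟩ : ∃ x : ℝ, x = 2 ^ (2 * ρ) * ((ρ : ℝ) + 2) := ⟨_, rfl⟩
  rw [← hx] at hJ
  have h2ρ : (1 : ℝ) ≤ 2 ^ (2 * ρ) := one_le_pow₀ (by norm_num)
  have hρx : (ρ : ℝ) + 2 ≤ x := by
    rw [hx]; exact le_mul_of_one_le_left (by linarith) h2ρ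
  have hAx : 0 ≤ 64 * 4 * A * x := by
    have : 0 ≤ x := by linarith
    positivity
  have hJ1 : (2 * (ρ + 5) : ℕ) ≤ J := by
    have h1 : ((2 * (ρ + 5) : ℕ) : ℝ) ≤ J := by
      push_cast
      have h2 : (4 * (64 * 4 * A) + 16) * x = 4 * (64 * 4 * A * x) + 16 * x := by ring
      rw [h2] at hJ
      linarith
    exact_mod_cast h1
  have hN0 : N ≠ 0 := by
    rintro rfl
    rw [Nat.log_zero_right] at hJd
    omega
  have hJN : 2 ^ J ≤ N := by rw [hJd]; exact Nat.pow_log_le_self 2 hN0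
  obtain ⟨C, hC⟩ : ∃ C : ℝ, C = ((2 ^ (ρ + 3) : ℕ) : ℝ) := ⟨_, rfl⟩
  have hC' : C = 8 * 2 ^ ρ := by rw [hC]; push_cast; rw [pow_add]; ring
  have h2ρ1 : (1 : ℝ) ≤ 2 ^ ρ := one_le_pow₀ (by norm_num)
  have hC1 : 1 ≤ C := by rw [hC']; linarith
  have hlogC : 1 + Real.log C ≤ 4 * (ρ + 2) := by
    have h1 : Real.log C = (3 + ρ) * Real.log 2 := by
      rw [hC', show (8 : ℝ) = 2 ^ 3 by norm_num, ← pow_add, Real.log_pow]
      push_cast; ring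
    have h2 : Real.log 2 ≤ 1 := by
      have := Real.log_two_lt_d9; linarith
    have h3 : (3 + (ρ : ℝ)) * Real.log 2 ≤ (3 + ρ) * 1 :=
      mul_le_mul_of_nonneg_left h2 (by linarith)
    rw [h1]; linarith
  have hF : A * (C ^ 2 * (1 + Real.log C)) ≤ 64 * 4 * A * x := by
    have hCp : C ^ 2 = 64 * 2 ^ (2 * ρ) := by
      rw [hC', mul_pow, ← pow_mul, mul_comm ρ 2]; norm_num
    calc A * (C ^ 2 * (1 + Real.log C)) ≤ A * (C ^ 2 * (4 * (ρ + 2))) :=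
          mul_le_mul_of_nonneg_left (mul_le_mul_of_nonneg_left hlogC (by positivity)) hA
      _ = _ := by rw [hCp, hx]; ring
  classical
  obtain ⟨X, hX⟩ : ∃ X : Finset ℕ, X = (Finset.Ico (J / 2) J).filter
    (fun j => Dp C (2 ^ (j - (ρ + 2)))) := ⟨_, rfl⟩
  have hXc : (X.card : ℝ) ≤ A * (C ^ 2 * (1 + Real.log C)) := by
    apply W3.exc_card (hthin C hC1) (ρ + 2)
    intro j hj
    rw [hX] at hj
    obtain ⟨h1, h2⟩ := Finset.mem_filter.mp hj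
    rw [Finset.mem_Ico] at h1
    exact ⟨by omega, h2⟩
  have hX4 : 4 * X.card ≤ J := by
    have h1 : ((4 * X.card : ℕ) : ℝ) ≤ J := by
      push_cast
      have h2 : (4 * (64 * 4 * A) + 16) * x = 4 * (64 * 4 * A * x) + 16 * x := by ring
      rw [h2] at hJ
      linarith
    exact_mod_cast h1
  obtain ⟨Er, hEr⟩ : ∃ Er, Er = {t ∈ Finset.range N | v t ≠ (dg b ξ (t + 1) : ℝ)} := ⟨_, rfl⟩
  rw [← hEr, ← hJd]
  have hsum := sum_scales ρ N hN0 X B Er (by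
    intro j hj hjX
    rw [← hJd] at hj
    have hj' := Finset.mem_Ico.mp hj
    have hj1 : 2 ^ (j + 1) ≤ N := by
      refine le_trans ?_ hJN
      exact Nat.pow_le_pow_right (by norm_num) (by omega)
    have h1 := hloc ρ j (by omega) v B (fun s e hs1 hse he hno =>
      hB s e hs1 hse (he.trans hj1) hno) (by
        intro hcon
        apply hjX
        rw [hX, Finset.mem_filter]
        refine ⟨hj, ?_⟩
        rw [show j - (ρ + 2) = j - ρ - 2 by omega, hC]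
        exact hcon)
    refine h1.trans (Nat.mul_le_mul_left _ (Nat.add_le_add_left ?_ _))
    apply Finset.card_le_card
    intro t ht
    obtain ⟨h2, h3⟩ := Finset.mem_filter.mp ht
    rw [Finset.mem_Ico] at h2
    rw [Finset.mem_filter, hEr, Finset.mem_filter, Finset.mem_range]
    exact ⟨⟨by omega, h3⟩, h2⟩)
  rw [← hJd] at hsum
  have h1 : J ≤ 4 * (J - J / 2 - X.card) := by omega
  have h2 : (J - J / 2 - X.card) * 2 ^ ρ ≤ 8 * (#B + (ρ + 2) * #Er) := by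
    rw [Nat.sub_mul]
    omega
  calc 2 ^ ρ * J = J * 2 ^ ρ := Nat.mul_comm _ _
    _ ≤ (4 * (J - J / 2 - X.card)) * 2 ^ ρ := Nat.mul_le_mul_right _ h1
    _ = 4 * ((J - J / 2 - X.card) * 2 ^ ρ) := by ring
    _ ≤ 4 * (8 * (#B + (ρ + 2) * #Er)) := Nat.mul_le_mul_left _ h2
    _ ≤ 4 * (8 * (2 * z + (ρ + 2) * #Er)) := by
        apply Nat.mul_le_mul_left; apply Nat.mul_le_mul_left; omega
    _ ≤ 64 * ((ρ + 2) * (z + #Er)) := by
        have h5 : z ≤ (ρ + 2) * z := Nat.le_mul_of_pos_left _ (by omega)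
        nlinarith

/-- in the form of `rate_c` -/
theorem main_g' (A : ℝ) (hA : 0 ≤ A) :
    ∃ A' : ℝ, ∀ (b : ℕ) (ξ : ℝ) (Dp : ℝ → ℕ → Prop) (Cp : (ℕ → ℝ) → ℕ → ℕ → Prop),
      LocE b ξ Dp Cp → (∀ C : ℝ, 1 ≤ C → Thin (Dp C) (A * (C ^ 2 * (1 + Real.log C)))) →
      ∀ (N z : ℕ) (v : ℕ → ℝ), Brk Cp v N z →
      ∀ ρ : ℕ, A' * (2 ^ (2 * ρ) * ((ρ : ℝ) + 2) ^ 3) ≤ Nat.log 2 N →
        2 ^ ρ * Nat.log 2 N ≤ 8 *
          (z + #{t ∈ Finset.range N | v t ≠ (dg b ξ (t + 1) : ℝ)}) := by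
  obtain ⟨A', h⟩ := main_g A hA
  refine ⟨max A' 0 * 81920, ?_⟩
  intro b ξ Dp Cp hloc hthin N z v hBrk ρ hJ
  obtain ⟨Z, hZ⟩ : ∃ Z, Z = z + #{t ∈ Finset.range N | v t ≠ (dg b ξ (t + 1) : ℝ)} := ⟨_, rfl⟩
  obtain ⟨J, hJd⟩ : ∃ J, J = Nat.log 2 N := ⟨_, rfl⟩
  rw [← hZ, ← hJd]
  rw [← hJd] at hJ
  obtain ⟨l, hl⟩ : ∃ l, l = Nat.clog 2 (ρ + 2) := ⟨_, rfl⟩
  have hl1 : ρ + 2 ≤ 2 ^ l := by rw [hl]; exact Nat.le_pow_clog (by norm_num) _
  have hl0 : 1 ≤ l := by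
    by_contra hcon
    have : l = 0 := by omega
    rw [this] at hl1
    omega
  have hl2 : 2 ^ (l - 1) < ρ + 2 := by
    have h1 := Nat.pow_pred_clog_lt_self (b := 2) (by norm_num) (x := ρ + 2) (by omega)
    rw [Nat.pred_eq_sub_one] at h1
    rw [hl]
    exact h1
  have hl3 : 2 ^ l ≤ 2 * (ρ + 2) := by
    have : 2 ^ l = 2 * 2 ^ (l - 1) := by
      rw [← pow_succ']; congr 1; omega
    omega
  have hl4 : l ≤ ρ + 2 := by
    have h1 : l - 1 < 2 ^ (l - 1) := Nat.lt_two_pow_self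
    omega
  obtain ⟨k, hk⟩ : ∃ k, k = l + 6 := ⟨_, rfl⟩
  have hk1 : 2 ^ k = 64 * 2 ^ l := by rw [hk, pow_add]; ring
  have hr2 : ρ + k + 2 ≤ 5 * (ρ + 2) := by omega
  have h8 : 8 * (ρ + k + 2) ≤ 2 ^ k := by omega
  have hkR : (2 : ℝ) ^ k ≤ 128 * ((ρ : ℝ) + 2) := by
    have : 2 ^ k ≤ 128 * (ρ + 2) := by omega
    exact_mod_cast this
  have hr2R : (((ρ + k : ℕ) : ℝ) + 2) ≤ 5 * ((ρ : ℝ) + 2) := by exact_mod_cast hr2
  have hρ0 : (0 : ℝ) ≤ ρ := Nat.cast_nonneg _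
  have hmain := h b ξ Dp Cp hloc hthin N z v hBrk (ρ + k) (by
    rw [← hJd]
    refine le_trans ?_ hJ
    have h1 : (2 : ℝ) ^ (2 * (ρ + k)) = 2 ^ (2 * ρ) * (2 ^ k) ^ 2 := by
      rw [← pow_mul, ← pow_add]; congr 1; ring
    have h2 : ((2 : ℝ) ^ k) ^ 2 ≤ (128 * ((ρ : ℝ) + 2)) ^ 2 :=
      pow_le_pow_left₀ (by positivity) hkR 2
    have h3 : (2 : ℝ) ^ (2 * (ρ + k)) * (((ρ + k : ℕ) : ℝ) + 2) ≤
        81920 * (2 ^ (2 * ρ) * ((ρ : ℝ) + 2) ^ 3) := by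
      calc (2 : ℝ) ^ (2 * (ρ + k)) * (((ρ + k : ℕ) : ℝ) + 2) ≤
            (2 ^ (2 * ρ) * (128 * ((ρ : ℝ) + 2)) ^ 2) * (5 * ((ρ : ℝ) + 2)) := by
            rw [h1]
            exact mul_le_mul (mul_le_mul_of_nonneg_left h2 (by positivity)) hr2R (by positivity)
              (by positivity)
        _ = _ := by ring
    calc A' * (2 ^ (2 * (ρ + k)) * (((ρ + k : ℕ) : ℝ) + 2)) ≤
          max A' 0 * (2 ^ (2 * (ρ + k)) * (((ρ + k : ℕ) : ℝ) + 2)) :=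
          mul_le_mul_of_nonneg_right (le_max_left _ _) (by positivity)
      _ ≤ max A' 0 * (81920 * (2 ^ (2 * ρ) * ((ρ : ℝ) + 2) ^ 3)) :=
          mul_le_mul_of_nonneg_left h3 (le_max_right _ _)
      _ = _ := by ring)
  rw [← hZ, ← hJd] at hmain
  have h9 : 2 ^ k * (2 ^ ρ * J) ≤ 2 ^ k * (8 * Z) := by
    calc 2 ^ k * (2 ^ ρ * J) = 2 ^ (ρ + k) * J := by rw [pow_add]; ring
      _ ≤ 64 * ((ρ + k + 2) * Z) := hmain
      _ = 8 * (8 * (ρ + k + 2)) * Z := by ring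
      _ ≤ 8 * 2 ^ k * Z := Nat.mul_le_mul_right _ (Nat.mul_le_mul_left _ h8)
      _ = 2 ^ k * (8 * Z) := by ring
  exact Nat.le_of_mul_le_mul_left h9 (by positivity)

/-- the breakpoints of a parsing, for a predicate that is implied by the copies -/
theorem brk_ofS {k : ℕ} {i₀ : Fin k} {D K : ℕ} {u : Fin k → ℕ → ℝ}
    {Cp : (ℕ → ℝ) → ℕ → ℕ → Prop} {v : ℕ → ℝ}
    (hCp : ∀ N M, IsCopyS i₀ D K u v N M → ∀ s e, 1 ≤ s → N ≤ s → e ≤ M → Cp v s e)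
    {N z : ℕ} (h : ProducesS i₀ D K u v N z) : Brk Cp v N z := by
  classical
  induction h with
  | nil =>
    exact ⟨∅, by simp, fun s e h1 h2 h3 _ => by omega⟩
  | @letter N z _ ih =>
    obtain ⟨B, hB, h⟩ := ih
    refine ⟨insert N B, (Finset.card_insert_le _ _).trans (by omega), ?_⟩
    intro s e h0 h1 h2 h3
    rcases Nat.lt_or_ge N e with h4 | h4
    · have := h3 N (Finset.mem_insert_self _ _)
      omega
    · exact h s e h0 h1 h4 (fun x hx => h3 x (Finset.mem_insert_of_mem hx))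
  | @copy N M z _ hNM hc ih =>
    obtain ⟨B, hB, h⟩ := ih
    refine ⟨insert N B, (Finset.card_insert_le _ _).trans (by omega), ?_⟩
    intro s e h0 h1 h2 h3
    rcases Nat.lt_or_ge N e with h4 | h4
    · have h5 := h3 N (Finset.mem_insert_self _ _)
      exact hCp N M hc s e h0 (by omega) h2
    · exact h s e h0 h1 h4 (fun x hx => h3 x (Finset.mem_insert_of_mem hx))

theorem brk1S {k : ℕ} {b : ℕ} {α : Fin k → ℝ} {i₀ : Fin k} {K : ℕ} (hK : 1 ≤ K) {v : ℕ → ℝ}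
    {N z : ℕ} (h : ProducesS i₀ 1 K (fun i t => (dg b (α i) (t + 1) : ℝ)) v N z) :
    Brk (Cp1S b α i₀ K) v N z := by
  refine brk_ofS ?_ h
  rintro N M ⟨S, T, a, c, c', hST, hd, hT, hv⟩ s e h0 h1 h2
  rcases T.eq_empty_or_nonempty with hT0 | hT0
  · subst hT0
    left
    simp only [Finset.card_empty, Nat.add_zero, Finset.sum_empty, add_zero] at hST hv
    rcases S.eq_empty_or_nonempty with hS0 | hS0
    · subst hS0
      refine ⟨1, a, 0, le_refl 1, h0, fun t ht1 ht2 => ?_⟩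
      rw [hv t (by omega) (by omega), Finset.sum_empty, zero_mul]
    · obtain ⟨d, hd'⟩ := Finset.card_eq_one.1 (le_antisymm hST (Finset.card_pos.2 hS0))
      subst hd'
      have h3 := hd d (Finset.mem_singleton_self d)
      refine ⟨d, a, c d, h3.1, h3.2.trans h1, fun t ht1 ht2 => ?_⟩
      rw [hv t (by omega) (by omega), Finset.sum_singleton]
  · right
    have hT1 : 1 ≤ #T := Finset.card_pos.2 hT0
    have hS0 : S = ∅ := Finset.card_eq_zero.1 (by omega)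
    subst hS0
    obtain ⟨x, hx⟩ := Finset.card_eq_one.1 (le_antisymm (by omega : #T ≤ 1) hT1)
    subst hx
    have h3 := hT x (Finset.mem_singleton_self x)
    have h4 : s - N ≤ K * (s - N) := Nat.le_mul_of_pos_left _ hK
    have h5 : K * s = K * N + K * (s - N) := by
      rw [← Nat.mul_add]; congr 1; omega
    refine ⟨x.1, h3.1, x.2 + (s - N), by omega, a, c' x, fun t ht1 ht2 => ?_⟩
    rw [hv t (by omega) (by omega), Finset.sum_empty, add_zero, Finset.sum_singleton,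
      show x.2 + (s - N) + (t - s) + 1 = x.2 + (t - N) + 1 by omega]

/-- affine copies of one window, with errors, with the digits of the other numbers -/
theorem finSE1 {k : ℕ} (α : Fin k → ℝ) (hα : ∀ i, IsAlgebraic ℚ (α i))
    (hlin : LinearIndependent ℚ (Fin.cons 1 α : Fin (k + 1) → ℝ)) (K : ℕ) (hK : 1 ≤ K) :
    ∃ c : ℝ, 0 < c ∧ ∃ N₀ : ℕ, ∀ b : ℕ, 2 ≤ b → ∀ i₀ : Fin k, ∀ N ≥ N₀, ∀ (v : ℕ → ℝ) (z : ℕ),
      ProducesS i₀ 1 K (fun i t => (dg b (α i) (t + 1) : ℝ)) v N z →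
      c * (Real.log N ^ (3 / 2 : ℝ) / Real.log (Real.log N) ^ (3 / 2 : ℝ)) ≤
        ((z + #{t ∈ Finset.range N | v t ≠ (dg b (α i₀) (t + 1) : ℝ)} : ℕ) : ℝ) := by
  obtain ⟨A, hA, hthin⟩ := thinK α hα hlin 4 K hK
  obtain ⟨A', h⟩ := main_g' A hA
  obtain ⟨c, hc, N₀, hr⟩ := rate_c 2 3 (by norm_num) A'
  have e1 : (1 : ℝ) + 1 / ((2 : ℕ) : ℝ) = 3 / 2 := by norm_num
  have e2 : ((3 : ℕ) : ℝ) / ((2 : ℕ) : ℝ) = 3 / 2 := by norm_num
  rw [e1, e2] at hr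
  refine ⟨c, hc, N₀, fun b hb i₀ N hN v z hP => hr N hN _ (fun ρ hρ => ?_)⟩
  exact h b (α i₀) (fun C => DepV b α 4 (K * C)) (Cp1S b α i₀ K) (locE_S b α i₀ K hK)
    (fun C hC => hthin b hb C hC) N z v (brk1S hK hP) ρ hρ

end Pool.Agent.H723.QF
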