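import Mathlib
import Pool.Agent.H723.LZ.Parse
import Pool.Agent.H723.QJ.LzDefs

/-! Parsings without the digits of other numbers are a special case. -/

set_option autoImplicit false

open Finset

namespace Pool.Agent.H723.QF

open Pool.Agent.H723.LZ Pool.Agent.H723.QJ

theorem toS {k : ℕ} (i₀ : Fin k) (D K : ℕ) (u : Fin k → ℕ → ℝ) {v : ℕ → ℝ} {N z : ℕ}
    (h : Produces D v N z) : ProducesS i₀ D K u v N z := by
  induction h with
  | nil => exact ProducesS.nil
  | letter _ ih => exact ProducesS.letter ih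
  | copy _ hNM hc ih =>
    refine ProducesS.copy ih hNM ?_
    obtain ⟨S, a, c, hS, hd, hv⟩ := hc
    refine ⟨S, ∅, a, c, fun _ => 0, by simpa using hS, hd, by simp, fun t ht1 ht2 => ?_⟩
    rw [hv t ht1 ht2, Finset.sum_empty, add_zero]

end Pool.Agent.H723.QF
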